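import Mathlib
import Pool.Agent.LOS.Core

set_option autoImplicit false

/-!
# Reciprocal sums under the χ-inequality: all finite sections

If finitely many integers `a 1, …, a N` satisfy the χ-inequality for all indices up to `N`, then
the sum of the `1 / a k` over `k ≤ N` is at most the sum of the `1 / χ k` over `k ≤ N`.
-/

namespace Pool.Agent.Results.MP_189914_nt.FiniteSections

open Pool.Agent.LOS

/-- The χ-sequence: `χ 1 = 1`, and for `i ≥ 2` the integer `χ i` is the largest of the numbers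
`(j + 1) (i - χ j)` with `1 ≤ j < i`. (The value at `0` plays no role. In the third line
`i = n + 2`, and the index is `j + 1` with `0 ≤ j ≤ n`.) -/
def chi : ℕ → ℤ
  | 0 => 0
  | 1 => 1
  | n + 2 => (Finset.univ : Finset (Fin (n + 1))).sup' Finset.univ_nonempty
      (fun j => (((j : ℕ) + 1 : ℤ) + 1) * (((n + 2 : ℕ) : ℤ) - chi ((j : ℕ) + 1)))
  termination_by n => n
  decreasing_by
    have := j.isLt
    omega

lemma chi_zero : chi 0 = 0 := by rw [chi]

lemma chi_one : chi 1 = 1 := by rw [chi]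

lemma chi_isGreatest (i : ℕ) (hi : 2 ≤ i) :
    IsGreatest {x : ℤ | ∃ j : ℕ, 1 ≤ j ∧ j < i ∧ x = ((j : ℤ) + 1) * ((i : ℤ) - chi j)}
      (chi i) := by
  obtain ⟨n, rfl⟩ : ∃ n, i = n + 2 := ⟨i - 2, by omega⟩
  rw [chi]
  constructor
  · obtain ⟨j, -, hj⟩ := Finset.exists_mem_eq_sup' (Finset.univ_nonempty (α := Fin (n + 1)))
      (fun j : Fin (n + 1) =>
        (((j : ℕ) + 1 : ℤ) + 1) * (((n + 2 : ℕ) : ℤ) - chi ((j : ℕ) + 1)))
    refine ⟨(j : ℕ) + 1, by omega, by have := j.isLt; omega, ?_⟩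
    rw [hj]
    push_cast
    ring
  · rintro x ⟨j, h1, h2, rfl⟩
    have h3 : j - 1 < n + 1 := by omega
    have h4 := Finset.le_sup' (fun j : Fin (n + 1) =>
        (((j : ℕ) + 1 : ℤ) + 1) * (((n + 2 : ℕ) : ℤ) - chi ((j : ℕ) + 1)))
      (Finset.mem_univ (⟨j - 1, h3⟩ : Fin (n + 1)))
    have h5 : j - 1 + 1 = j := by omega
    simp only [h5] at h4
    have h6 : (((j - 1 : ℕ) : ℤ) + 1) = j := by omega
    rw [h6] at h4
    exact h4

/-- The χ-sequence with natural number values. -/
def cN (k : ℕ) : ℕ := (chi k).toNat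

lemma le_chi (k : ℕ) : (k : ℤ) ≤ chi k := by
  rcases Nat.eq_zero_or_pos k with hk | hk
  · rw [hk, chi_zero]; rfl
  rcases Nat.lt_or_ge k 2 with h2 | h2
  · have : k = 1 := by omega
    subst this
    rw [chi_one]; norm_num
  · have := (chi_isGreatest k h2).2 ⟨1, le_rfl, by omega, rfl⟩
    rw [chi_one] at this
    push_cast at this
    have hk2 : (2 : ℤ) ≤ k := by exact_mod_cast h2
    linarith

lemma cast_cN (k : ℕ) : ((cN k : ℕ) : ℤ) = chi k := by
  have := le_chi k
  exact Int.toNat_of_nonneg (by omega)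

lemma isChi_cN : IsChi cN := by
  have h0 : cN 0 = 0 := by
    have := cast_cN 0
    rw [chi_zero] at this
    exact_mod_cast this
  refine ⟨h0, ?_, ?_⟩
  · intro j k
    rcases Nat.eq_zero_or_pos k with hk | hk
    · rw [hk]; simp
    rcases Nat.eq_zero_or_pos j with hj | hj
    · rw [hj, h0]
      have h2 := cast_cN k
      have h3 := le_chi k
      omega
    · rcases Nat.lt_or_ge j k with hjk | hjk
      · have h4 := (chi_isGreatest k (by omega)).2 ⟨j, hj, hjk, rfl⟩
        rw [← cast_cN j, ← cast_cN k] at h4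
        have h5 : ((j : ℤ) + 1) * k ≤ cN k + (j + 1) * cN j := by linarith
        exact_mod_cast h5
      · have h6 : k ≤ cN j := by
          have h7 := le_chi j
          have h8 := cast_cN j
          omega
        have h9 : (j + 1) * k ≤ (j + 1) * cN j := Nat.mul_le_mul_left _ h6
        omega
  · intro k
    rcases Nat.eq_zero_or_pos k with hk | hk
    · exact ⟨0, by rw [hk, h0]⟩
    rcases Nat.lt_or_ge k 2 with h2 | h2
    · have : k = 1 := by omega
      subst this
      refine ⟨0, ?_⟩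
      rw [h0]
      have h3 := cast_cN 1
      rw [chi_one] at h3
      omega
    · obtain ⟨j, hj1, hj2, hj3⟩ := (chi_isGreatest k h2).1
      refine ⟨j, ?_⟩
      rw [← cast_cN j, ← cast_cN k] at hj3
      have h5 : ((j : ℤ) + 1) * k = cN k + (j + 1) * cN j := by linarith
      exact_mod_cast h5

/-- **Finite sections.** If the integers `a 1, …, a N` satisfy the χ-inequality
`a i + (j + 1) a j ≥ (j + 1) i` for all `1 ≤ i, j ≤ N`, then
`∑_{k ≤ N} 1 / a k ≤ ∑_{k ≤ N} 1 / χ k`. -/
theorem result (N : ℕ) (a : ℕ → ℤ)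
    (ha : ∀ i j : ℕ, 1 ≤ i → i ≤ N → 1 ≤ j → j ≤ N →
      ((j : ℤ) + 1) * (i : ℤ) ≤ a i + ((j : ℤ) + 1) * a j) :
    ∑ k ∈ Finset.Icc 1 N, 1 / (a k : ℝ) ≤ ∑ k ∈ Finset.Icc 1 N, 1 / (chi k : ℝ) := by
  have hapos : ∀ k : ℕ, 1 ≤ k → k ≤ N → (k : ℤ) ≤ a k := by
    intro k hk hkN
    have h2 := ha k k hk hkN hk hkN
    have hk' : (1 : ℤ) ≤ k := by exact_mod_cast hk
    by_contra hcon
    push Not at hcon
    nlinarith
  -- the extension to an infinite sequence
  set b : ℕ → ℕ := fun k => if k ≤ N then (a k).toNat else (k + 1) * k with hb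
  have hbN : ∀ k, 1 ≤ k → k ≤ N → ((b k : ℕ) : ℤ) = a k := by
    intro k hk hkN
    simp only [hb, if_pos hkN]
    have := hapos k hk hkN
    exact Int.toNat_of_nonneg (by omega)
  have hb' : ∀ k, N < k → b k = (k + 1) * k := by
    intro k hk
    simp only [hb, if_neg (not_le.mpr hk)]
  have hbk : ∀ k, 1 ≤ k → k ≤ b k := by
    intro k hk
    rcases Nat.lt_or_ge N k with h | h
    · rw [hb' k h]
      nlinarith
    · have h1 := hbN k hk h
      have h2 := hapos k hk h
      omega
  have hchi : ∀ i j : ℕ, 1 ≤ i → 1 ≤ j → (j + 1) * i ≤ b i + (j + 1) * b j := by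
    intro i j hi hj
    rcases Nat.lt_or_ge N i with h | h
    · rcases Nat.lt_or_ge i j with hij | hij
      · have h1 : (j + 1) * i ≤ (j + 1) * b j :=
          Nat.mul_le_mul_left _ (hij.le.trans (hbk j hj))
        omega
      · rw [hb' i h]
        have h1 : (j + 1) * i ≤ (i + 1) * i := Nat.mul_le_mul_right _ (by omega)
        omega
    · rcases Nat.lt_or_ge N j with h' | h'
      · have h1 : (j + 1) * i ≤ (j + 1) * b j :=
          Nat.mul_le_mul_left _ ((by omega : i ≤ j).trans (hbk j hj))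
        omega
      · have h2 := ha i j hi h hj h'
        rw [← hbN i hi h, ← hbN j hj h'] at h2
        exact_mod_cast h2
  have hcore := core cN isChi_cN b hchi N
  have e1 : ∑ k ∈ Finset.Icc 1 N, 1 / (a k : ℝ) =
      ∑ k ∈ Finset.range N, 1 / ((b (k + 1) : ℕ) : ℝ) := by
    rw [Finset.range_eq_Ico, Finset.sum_Ico_add' (fun k => 1 / ((b k : ℕ) : ℝ)) 0 N 1]
    apply Finset.sum_congr
    · ext k
      simp only [Finset.mem_Icc, Finset.mem_Ico]
      omega
    · intro k hk
      rw [Finset.mem_Ico] at hk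
      have := hbN k (by omega) (by omega)
      rw [← this]
      push_cast
      rfl
  have e2 : ∑ k ∈ Finset.Icc 1 N, 1 / (chi k : ℝ) =
      ∑ k ∈ Finset.range N, 1 / ((cN (k + 1) : ℕ) : ℝ) := by
    rw [Finset.range_eq_Ico, Finset.sum_Ico_add' (fun k => 1 / ((cN k : ℕ) : ℝ)) 0 N 1]
    apply Finset.sum_congr
    · ext k
      simp only [Finset.mem_Icc, Finset.mem_Ico]
      omega
    · intro k hk
      rw [← cast_cN k]
      push_cast
      rfl
  rw [e1, e2]
  exact hcore

end Pool.Agent.Results.MP_189914_nt.FiniteSections
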